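import Pool.Agent.Lib.MP_b5021c_nt.IfaceG

/-!
# MP_b5021c_nt, module G0C: the closed element
-/

namespace Pool.Agent.B5.H05

open scoped LaurentPolynomial

/-- The exponents of the closed element are projections of exponents. -/
theorem supp_cl {O : Type} [CommRing O] {L : Type} [AddCommGroup L] (k : L →+ ℤ) (S : L)
    (h : k S = 1) (eta : (RO O)ˣ) (D : AO O L) (b : Ker k) (hb : b ∈ supp (cl k S h eta D)) :
    ∃ a ∈ supp D, prj k S h a = b := by
  classical
  by_contra hcon
  push Not at hcon
  apply hb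
  have h1 : cl k S h eta D = D.coeff.sum fun a q => cl k S h eta (AddMonoidAlgebra.single a q) := by
    rw [← map_finsuppSum]
    congr 1
    exact (AddMonoidAlgebra.sum_coeff_single D).symm
  rw [h1, Finsupp.sum, AddMonoidAlgebra.coeff_sum, Finsupp.finsetSum_apply]
  refine Finset.sum_eq_zero fun a ha => ?_
  rw [cl_single, AddMonoidAlgebra.coeff_single, Finsupp.single_apply, if_neg]
  exact hcon a (Finsupp.mem_support_iff.1 ha)

/-- The exponents of the closed element are in `W(I, O)`. -/
theorem ww_cl {O : Type} [CommRing O] {P : Type} [Fintype P] [DecidableEq P] {L : Type}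
    [AddCommGroup L] (phi : L →+ (P → ℤ)) (D : AO O L) (S : L) (i0 : P) (eta : (RO O)ˣ)
    (h : co phi i0 S = 1) (hbin : ∀ a ∈ supp D, Bin phi a) (hBS : Bin phi S)
    (b : Ker (co phi i0)) (hb : b ∈ supp (cl (co phi i0) S h eta D)) :
    WW (phK phi (co phi i0)) (II phi S i0) (OO phi S) b := by
  obtain ⟨a, ha, rfl⟩ := supp_cl (co phi i0) S h eta D b hb
  have hBa := hbin a ha
  have hval : ∀ j, phK phi (co phi i0) (prj (co phi i0) S h a) j = phi a j - phi a i0 * phi S j := by
    intro j
    change phi (a - (phi a i0) • S) j = _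
    rw [map_sub, map_zsmul]
    simp [Pi.sub_apply]
  have hSi : phi S i0 = 1 := h
  refine ⟨?_, ?_, ?_⟩
  · intro j hj
    have hj1 : phi S j = 0 := (Finset.mem_filter.1 hj).2
    rw [hval, hj1, mul_zero, sub_zero]
    exact hBa j
  · rcases hBa i0 with h0 | h0
    · left
      intro i hi
      rw [hval, h0, zero_mul, sub_zero]
      exact hBa i
    · right
      intro i hi
      have hi1 : phi S i = 1 := (Finset.mem_filter.1 hi).2.1
      rw [hval, h0, hi1]
      rcases hBa i with h1 | h1 <;> rw [h1]
      · right; norm_num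
      · left; norm_num
  · intro j hjI hjO
    have h1 : phi S j = 1 := by
      rcases hBS j with h2 | h2
      · exact absurd (Finset.mem_filter.2 ⟨Finset.mem_univ j, h2⟩) hjO
      · exact h2
    have h2 : j = i0 := by
      by_contra h3
      exact hjI (Finset.mem_filter.2 ⟨Finset.mem_univ j, h1, h3⟩)
    rw [hval, h1, h2]
    ring

/-- Module G0C. -/
theorem g0 (h5 : B5S) (h5a : B5aS) (h5u : B5uS) : G0S := by
  intro O _ _ _ _ P L _ _ _ _ _ phi D S i0 eta h hC
  obtain ⟨hD, htwo, hray, hpiv, hv0⟩ := hC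
  obtain ⟨hS, hS0, lam, hlS, hlam⟩ := hray
  have hBS := hD.bin S hS
  refine ⟨?_, h5u O L D (co phi i0) S h eta hD.un, (h5a O L D (co phi i0) S h eta lam hlS hlam).1,
    ?_, ?_, ?_⟩
  · refine h5 O L D (co phi i0) S h eta lam hD.st ?_ hlS hlam hv0
    intro a ha
    have h1 := hD.bin a (Finsupp.mem_support_iff.1 ha) i0
    change 0 ≤ phi a i0
    omega
  · exact ww_cl phi D S i0 eta h hD.bin hBS
  · intro a b hab
    apply Subtype.ext
    exact hD.inj hab
  · intro mu hmS hmu
    exact (h5a O L D (co phi i0) S h eta mu hmS hmu).2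

end Pool.Agent.B5.H05
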