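import Pool.Agent.Lib.MP_b5021c_nt.H05.G0c

/-!
# MP_b5021c_nt, module RFA: every extreme ray of the closed element is an exponent of some factor
-/

namespace Pool.Agent.B5.H05

open scoped LaurentPolynomial

section

variable {K : Type} [CommRing K] {L : Type} [AddCommGroup L]

theorem supp_mul (F G : AddMonoidAlgebra K L) (b : L) (hb : b ∈ supp (F * G)) :
    ∃ a ∈ supp F, ∃ a' ∈ supp G, b = a + a' := by
  classical
  by_contra hcon
  push Not at hcon
  apply hb
  rw [AddMonoidAlgebra.coeff_mul]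
  refine Finset.sum_eq_zero fun a ha => ?_
  refine Finset.sum_eq_zero fun a' ha' => ?_
  change (if a + a' = b then F.coeff a * G.coeff a' else 0) = 0
  rw [if_neg]
  exact fun h => hcon a (Finsupp.mem_support_iff.1 ha) a' (Finsupp.mem_support_iff.1 ha') h.symm

theorem supp_prod {n : ℕ} (G : Fin n → AddMonoidAlgebra K L) (s : Finset (Fin n)) :
    ∀ b : L, b ∈ supp (∏ i ∈ s, G i) →
      ∃ a : Fin n → L, (∀ i ∈ s, a i ∈ supp (G i)) ∧ b = ∑ i ∈ s, a i := by
  classical
  induction s using Finset.induction_on with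
  | empty =>
    intro b hb
    refine ⟨fun _ => 0, by simp, ?_⟩
    rw [Finset.sum_empty]
    by_contra h
    apply hb
    rw [Finset.prod_empty, AddMonoidAlgebra.one_def, AddMonoidAlgebra.coeff_single,
      Finsupp.single_apply, if_neg (Ne.symm h)]
  | insert j s hj ih =>
    intro b hb
    rw [Finset.prod_insert hj] at hb
    obtain ⟨a, ha, a', ha', hab⟩ := supp_mul _ _ b hb
    obtain ⟨f, hf, hfs⟩ := ih a' ha'
    refine ⟨fun i => if i = j then a else f i, ?_, ?_⟩
    · intro i hi
      by_cases hij : i = j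
      · simp only [hij, if_true]
        exact ha
      · simp only [hij, if_false]
        exact hf i ((Finset.mem_insert.1 hi).resolve_left hij)
    · rw [Finset.sum_insert hj, hab, hfs]
      simp only [if_true]
      congr 1
      refine Finset.sum_congr rfl fun i hi => ?_
      have hij : i ≠ j := fun h => hj (h ▸ hi)
      simp only [hij, if_false]

/-- If `lam` exposes `b`, then a large multiple of `lam` added to `mu` is non-negative. -/
theorem exp_add (V : AddMonoidAlgebra K L) (lam : L →+ ℤ) (b : L) (hlb : lam b = 0)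
    (hlam : ∀ a ∈ supp V, a ≠ 0 → a ≠ b → 0 < lam a) (mu : L →+ ℤ) (hmu : 0 ≤ mu b) :
    ∃ N : ℤ, Nn (N • lam + mu) V := by
  classical
  refine ⟨∑ a ∈ V.coeff.support, |mu a|, fun a ha => ?_⟩
  have hval : ((∑ a ∈ V.coeff.support, |mu a|) • lam + mu) a
      = (∑ a ∈ V.coeff.support, |mu a|) * lam a + mu a := by
    rw [AddMonoidHom.add_apply, AddMonoidHom.coe_smul, Pi.smul_apply, smul_eq_mul]
  rw [hval]
  by_cases h0 : a = 0
  · rw [h0, map_zero, map_zero]
    simp
  by_cases hb : a = b
  · rw [hb, hlb, mul_zero, zero_add]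
    exact hmu
  have h1 := hlam a (Finsupp.mem_support_iff.1 ha) h0 hb
  have h2 : |mu a| ≤ ∑ a ∈ V.coeff.support, |mu a| :=
    Finset.single_le_sum (f := fun a => |mu a|) (fun i _ => abs_nonneg _) ha
  have h3 := neg_abs_le (mu a)
  have h4 := abs_nonneg (mu a)
  nlinarith

end

/-- An element on which every functional non-negative at `b` is non-negative, is a non-negative
multiple of `b`. -/
theorem prop_of_functionals {L : Type} [AddCommGroup L] [Module.Free ℤ L] [Module.Finite ℤ L]
    (a b : L) (hb : b ≠ 0) (h : ∀ mu : L →+ ℤ, 0 ≤ mu b → 0 ≤ mu a) :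
    ∃ m n : ℕ, 0 < m ∧ m • a = n • b := by
  classical
  set B := Module.Free.chooseBasis ℤ L with hB
  set f : Module.Free.ChooseBasisIndex ℤ L → L →+ ℤ := fun k => (B.coord k).toAddMonoidHom with hf
  have hfv : ∀ k x, f k x = B.repr x k := fun k x => rfl
  obtain ⟨k0, hk0⟩ : ∃ k, f k b ≠ 0 := by
    by_contra hcon
    push Not at hcon
    apply hb
    apply B.repr.injective
    rw [map_zero]
    ext k
    exact hcon k
  have h1 : ∀ k, f k0 b * f k a = f k b * f k0 a := by
    intro k
    have h2 := h (f k0 b • f k - f k b • f k0) (by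
      rw [AddMonoidHom.sub_apply, AddMonoidHom.coe_smul, AddMonoidHom.coe_smul, Pi.smul_apply,
        Pi.smul_apply, smul_eq_mul, smul_eq_mul]
      linarith [mul_comm (f k0 b) (f k b)])
    have h3 := h (f k b • f k0 - f k0 b • f k) (by
      rw [AddMonoidHom.sub_apply, AddMonoidHom.coe_smul, AddMonoidHom.coe_smul, Pi.smul_apply,
        Pi.smul_apply, smul_eq_mul, smul_eq_mul]
      linarith [mul_comm (f k0 b) (f k b)])
    rw [AddMonoidHom.sub_apply, AddMonoidHom.coe_smul, AddMonoidHom.coe_smul, Pi.smul_apply,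
      Pi.smul_apply, smul_eq_mul, smul_eq_mul] at h2 h3
    linarith
  have h4 : f k0 b • a = f k0 a • b := by
    apply B.repr.injective
    ext k
    rw [map_zsmul, map_zsmul]
    change f k0 b • f k a = f k0 a • f k b
    rw [smul_eq_mul, smul_eq_mul, h1 k]
    ring
  rcases lt_or_gt_of_ne hk0 with h5 | h5
  · have h6 := h (-(f k0)) (by rw [AddMonoidHom.neg_apply]; linarith)
    rw [AddMonoidHom.neg_apply] at h6
    refine ⟨(-(f k0 b)).toNat, (-(f k0 a)).toNat, by omega, ?_⟩
    rw [← natCast_zsmul, ← natCast_zsmul, Int.toNat_of_nonneg (by omega), Int.toNat_of_nonneg h6,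
      neg_smul, neg_smul, h4]
  · have h6 := h (f k0) h5.le
    refine ⟨(f k0 b).toNat, (f k0 a).toNat, by omega, ?_⟩
    rw [← natCast_zsmul, ← natCast_zsmul, Int.toNat_of_nonneg h5.le, Int.toNat_of_nonneg h6, h4]

/-- Module RFA. -/
theorem rfa (hT : ThinS) : RayFacS := by
  intro O _ _ _ _ P L _ _ _ _ _ phi D S i0 eta h c n G hF b hb
  classical
  obtain ⟨hbV, hb0, lam, hlb, hlam⟩ := hb
  have hwb := ww_cl phi D S i0 eta h hF.cc.dd.bin (hF.cc.dd.bin S hF.cc.ray.1) b hbV
  have h1 : b ∈ supp (∏ i, G i) := by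
    have h2 : (cl (co phi i0) S h eta D).coeff b = c * (∏ i, G i).coeff b := by
      rw [hF.eq]
      exact AddMonoidAlgebra.coeff_single_zero_mul _ _ _
    intro h3
    apply hbV
    rw [h2, h3, mul_zero]
  obtain ⟨a, ha, hab⟩ := supp_prod G Finset.univ b h1
  -- all the summands have `lam`-degree zero
  have hNl : Nn lam (cl (co phi i0) S h eta D) := by
    intro x hx
    by_cases h0 : x = 0
    · rw [h0, map_zero]
    by_cases hxb : x = b
    · rw [hxb, hlb]
    exact (hlam x (Finsupp.mem_support_iff.1 hx) h0 hxb).le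
  have hnn : ∀ i, 0 ≤ lam (a i) := fun i =>
    hF.nn i lam hNl (a i) (Finsupp.mem_support_iff.2 (ha i (Finset.mem_univ i)))
  have hz : ∀ i, lam (a i) = 0 := by
    have h2 : ∑ i, lam (a i) = 0 := by
      rw [← map_sum, ← hab, hlb]
    intro i
    exact (Finset.sum_eq_zero_iff_of_nonneg (fun i _ => hnn i)).1 h2 i (Finset.mem_univ i)
  obtain ⟨i, hi⟩ : ∃ i, a i ≠ 0 := by
    by_contra hcon
    push Not at hcon
    apply hb0
    rw [hab]
    exact Finset.sum_eq_zero fun i _ => hcon i
  refine ⟨i, ?_⟩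
  have h3 : ∀ mu : Ker (co phi i0) →+ ℤ, 0 ≤ mu b → 0 ≤ mu (a i) := by
    intro mu hmu
    obtain ⟨N, hN⟩ := exp_add (cl (co phi i0) S h eta D) lam b hlb hlam mu hmu
    have h4 := hF.nn i (N • lam + mu) hN (a i)
      (Finsupp.mem_support_iff.2 (ha i (Finset.mem_univ i)))
    rw [AddMonoidHom.add_apply, AddMonoidHom.coe_smul, Pi.smul_apply, smul_eq_mul, hz i,
      mul_zero, zero_add] at h4
    exact h4
  obtain ⟨m, k, hm, hmk⟩ := prop_of_functionals (a i) b hb0 h3
  have hk : 0 < k := by
    rcases Nat.eq_zero_or_pos k with h5 | h5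
    · exfalso
      rw [h5, zero_smul] at hmk
      exact hi ((smul_eq_zero.1 hmk).resolve_left hm.ne')
    · exact h5
  have hthin := hT P (Ker (co phi i0)) (phK phi (co phi i0)) (II phi S i0) (OO phi S)
    {a i, b} (fun x y hxy => Subtype.ext (hF.cc.dd.inj hxy)) (by
      intro x hx
      rcases hx with rfl | hx
      · exact hF.ww i _ (ha i (Finset.mem_univ i))
      · rw [Set.mem_singleton_iff.1 hx]
        exact hwb)
  have h6 := hthin (a i) (by simp) b (by simp) m k hm hk hmk
  rw [← h6]
  exact ha i (Finset.mem_univ i)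

end Pool.Agent.B5.H05
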