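import Pool.Agent.Lib.MP_b5021c_nt.IfaceJ

/-!
# MP_b5021c_nt, module RWD: restriction to a saturated sublattice containing the support
-/

namespace Pool.Agent.B5.H05

open scoped LaurentPolynomial

section

variable {O : Type} [CommRing O] {L : Type} [AddCommGroup L]

/-- The inclusion of the group algebra of a sublattice. -/
noncomputable def inc (K : Submodule ℤ L) : AO O K →+* AO O L :=
  AddMonoidAlgebra.mapDomainRingHom (RO O) (incl K)

theorem incl_inj (K : Submodule ℤ L) : Function.Injective (incl K) := fun _ _ h => Subtype.ext h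

theorem inc_coeff (K : Submodule ℤ L) (x : AO O K) (a : K) : (inc K x).coeff (a : L) = x.coeff a :=
  Finsupp.mapDomain_apply (incl_inj K) x.coeff a

theorem inc_coeff_not (K : Submodule ℤ L) (x : AO O K) (b : L) (hb : b ∉ K) :
    (inc K x).coeff b = 0 := by
  refine Finsupp.mapDomain_of_notMem_range x.coeff b ?_
  rintro ⟨a, rfl⟩
  exact hb a.2

theorem res_inc (K : Submodule ℤ L) (x : AO O K) : res K (inc K x) = x := by
  apply AddMonoidAlgebra.ext
  apply Finsupp.ext
  intro a
  rw [res_coeff, inc_coeff]

theorem inc_res (K : Submodule ℤ L) (G : AO O L) (h : ∀ a ∈ supp G, a ∈ K) :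
    inc K (res K G) = G := by
  apply AddMonoidAlgebra.ext
  apply Finsupp.ext
  intro b
  by_cases hb : b ∈ K
  · exact (inc_coeff K (res K G) ⟨b, hb⟩).trans (res_coeff K G ⟨b, hb⟩)
  · rw [inc_coeff_not K _ b hb]
    by_contra h1
    exact hb (h b (Ne.symm h1))

theorem inc_inj (K : Submodule ℤ L) : Function.Injective (inc (O := O) K) := by
  intro x y h
  rw [← res_inc K x, ← res_inc K y, h]

theorem inc_single (K : Submodule ℤ L) (a : K) (c : RO O) :
    inc K (AddMonoidAlgebra.single a c) = AddMonoidAlgebra.single (a : L) c := by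
  rw [← inc_res K (AddMonoidAlgebra.single (a : L) c) ?_]
  · congr 1
    apply AddMonoidAlgebra.ext
    apply Finsupp.ext
    intro b
    rw [res_coeff, AddMonoidAlgebra.coeff_single, AddMonoidAlgebra.coeff_single]
    by_cases h : a = b
    · rw [h, Finsupp.single_eq_same, Finsupp.single_eq_same]
    · have h2 : (a : L) ≠ (b : L) := fun h3 => h (Subtype.ext h3)
      rw [Finsupp.single_eq_of_ne (Ne.symm h), Finsupp.single_eq_of_ne (Ne.symm h2)]
  · intro b hb
    by_contra h1
    apply hb
    rw [AddMonoidAlgebra.coeff_single, Finsupp.single_eq_of_ne]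
    rintro rfl
    exact h1 a.2

end

theorem inc_sharp {O : Type} [CommRing O] [Coef O] {L : Type} [AddCommGroup L]
    (K : Submodule ℤ L) (x : AO O K) : inc K (sharp x) = sharp (inc K x) := by
  apply AddMonoidAlgebra.ext
  apply Finsupp.ext
  intro b
  rw [sharp_coeff']
  by_cases hb : b ∈ K
  · have h1 := inc_coeff K (sharp x) ⟨b, hb⟩
    have h2 := inc_coeff K x (-⟨b, hb⟩)
    have h3 : ((-⟨b, hb⟩ : K) : L) = -b := rfl
    rw [h3] at h2
    rw [h2]
    exact h1.trans (sharp_coeff' x _)
  · rw [inc_coeff_not K _ b hb, inc_coeff_not K x (-b) (fun h => hb (by simpa using K.neg_mem h)),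
      map_zero]

/-- Module RWD. -/
theorem rwd (hU : UnitAS) (hR : RkS) : ResWDS := by
  intro O _ _ _ _ L _ _ _ G hG0
  classical
  set K : Submodule ℤ L := satur (Submodule.span ℤ (supp G)) with hK
  have hmem : ∀ a ∈ supp G, a ∈ K := fun a ha =>
    ⟨1, one_ne_zero, by rw [one_smul]; exact Submodule.subset_span ha⟩
  have hGi := inc_res K G hmem
  refine ⟨K, ?_, hmem, ?_, ?_, ?_, ?_⟩
  · rintro n a hn ⟨m, hm, hma⟩
    refine ⟨m * n, mul_ne_zero hm hn, ?_⟩
    rw [mul_smul]
    exact hma
  · have h1 : rk (K : Set L) = Module.finrank ℤ K := by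
      unfold rk
      rw [Submodule.span_eq]
    rw [← h1]
    apply le_antisymm
    · exact (hR L L).2.2.2.2.2.2.2.2.1 (K : Set L) (supp G) fun a ha => ha
    · exact (hR L L).2.1 (supp G) (K : Set L) fun a ha => hmem a ha
  · intro hirr
    refine ⟨?_, ?_⟩
    · intro hu
      apply hirr.not_isUnit
      rw [← hGi]
      exact hu.map (inc K)
    · intro x y hxy
      have h1 : G = inc K x * inc K y := by
        rw [← map_mul, ← hxy, hGi]
      have key : ∀ w : AO O K, IsUnit (inc K w) → IsUnit w := by
        intro w hw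
        obtain ⟨a, c, hc, hac⟩ := (hU O L (inc K w)).1 hw
        have haK : a ∈ K := by
          by_contra h2
          have h3 := inc_coeff_not K w a h2
          rw [hac, AddMonoidAlgebra.coeff_single, Finsupp.single_eq_same] at h3
          exact hc.ne_zero h3
        refine (hU O K w).2 ⟨⟨a, haK⟩, c, hc, ?_⟩
        apply inc_inj K
        rw [inc_single, hac]
      rcases hirr.isUnit_or_isUnit h1 with h2 | h2
      · exact Or.inl (key x h2)
      · exact Or.inr (key y h2)
  · rintro ⟨u, hu⟩
    obtain ⟨a, c, hc, hac⟩ := (hU O L (u : AO O L)).1 u.isUnit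
    rw [hac] at hu
    have haK : a ∈ K := by
      obtain ⟨b, hb⟩ : ∃ b, b ∈ supp G := by
        by_contra hcon
        push Not at hcon
        apply hG0
        apply AddMonoidAlgebra.ext
        apply Finsupp.ext
        intro b
        by_contra h2
        exact hcon b h2
      have h2 : (sharp G * AddMonoidAlgebra.single a c).coeff b = (sharp G).coeff (b - a) * c := by
        rw [AddMonoidAlgebra.coeff_mul_single_eq_coeff_mul (b - a)]
        intro m' _
        constructor
        · intro h3
          rw [← h3]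
          abel
        · intro h3
          rw [h3]
          abel
      have h4 : -(b - a) ∈ K := by
        apply hmem
        intro h5
        apply hb
        rw [← hu, h2, sharp_coeff', h5, map_zero, zero_mul]
      have h6 := K.add_mem h4 (hmem b hb)
      have h7 : -(b - a) + b = a := by abel
      rwa [h7] at h6
    have hu' : IsUnit (AddMonoidAlgebra.single (⟨a, haK⟩ : K) c : AO O K) :=
      (hU O K _).2 ⟨⟨a, haK⟩, c, hc, rfl⟩
    obtain ⟨v, hv⟩ := hu'
    refine ⟨v, ?_⟩
    rw [hv]
    apply inc_inj K
    rw [map_mul, inc_sharp, hGi, inc_single]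
    exact hu
  · have h1 : (incl K) '' (supp (res K G)) = supp G := by
      ext b
      constructor
      · rintro ⟨x, hx, rfl⟩
        exact hx
      · intro hb
        exact ⟨⟨b, hmem b hb⟩, hb, rfl⟩
    rw [← h1]
    exact ((hR K L).2.2.2.1 (incl K) (supp (res K G)) (incl_inj K)).symm

end Pool.Agent.B5.H05
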